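import Pool.Agent.SOR.Stmts1

/-!
# SOR, IVF: the properties of the pairing
-/

open scoped BigOperators

noncomputable section

namespace Pool.Agent.SOR.H56

variable {Y : Type} {i : Fr →* Equiv.Perm Y}

theorem i_mul (g h : Fr) (y : Y) : i (g * h) y = i g (i h y) := by
  rw [map_mul, Equiv.Perm.mul_apply]

theorem cx_add {u v : Fr → Y → ℚ} (hu : Cx i u) (hv : Cx i v) :
    Cx i (fun w y => u w y + v w y) := by
  intro g h y
  simp only
  rw [hu g h y, hv g h y]
  ring

theorem cx_dl (f : Y → ℚ) : Cx i (dl i f) := by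
  intro g h y
  unfold dl
  rw [i_mul]
  ring

theorem ivf (thx : ThxStmt) : IvfStmt := by
  intro Y _ i
  have key : ∀ u v θ, Cx i u → Cx i v → Th i u v θ → Iv i u v = ∑ y, θ lC y := by
    intro u v θ hu hv hθ
    obtain ⟨h1, h2, _⟩ := thx Y i u v hu hv
    have h3 : ∃ θ, Th i u v θ ∧ (∀ y, θ lA y = 0) ∧ (∀ y, θ lB y = 0) := h1
    unfold Iv
    rw [dif_pos h3]
    exact h2 _ _ h3.choose_spec.1 hθ
  refine ⟨key, ?_, ?_, ?_, ?_, ?_, ?_⟩
  · intro u u' v hu hu' hv
    obtain ⟨θ, hθ, _⟩ := (thx Y i u v hu hv).1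
    obtain ⟨θ', hθ', _⟩ := (thx Y i u' v hu' hv).1
    rw [key u v θ hu hv hθ, key u' v θ' hu' hv hθ',
      key _ v (fun w y => θ w y + θ' w y) (cx_add hu hu') hv ?_, Finset.sum_add_distrib]
    intro g h y
    simp only
    rw [hθ g h y, hθ' g h y]
    ring
  · intro u v v' hu hv hv'
    obtain ⟨θ, hθ, _⟩ := (thx Y i u v hu hv).1
    obtain ⟨θ', hθ', _⟩ := (thx Y i u v' hu hv').1
    rw [key u v θ hu hv hθ, key u v' θ' hu hv' hθ',
      key u _ (fun w y => θ w y + θ' w y) hu (cx_add hv hv') ?_, Finset.sum_add_distrib]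
    intro g h y
    simp only
    rw [hθ g h y, hθ' g h y]
    ring
  · intro f v hv
    rw [key (dl i f) v (fun g y => f (i g y) * v g y) (cx_dl f) hv ?_]
    intro g h y
    simp only [dl]
    rw [i_mul, hv g h y]
    ring
  · intro u f hu
    rw [key u (dl i f) (fun g y => -(u g y * f y)) hu (cx_dl f) ?_, Finset.sum_neg_distrib]
    intro g h y
    simp only [dl]
    rw [hu g h y]
    ring
  · intro φ π hact hC u v hu hv
    have h1 : ∀ h y, π⁻¹ (i h y) = i (φ⁻¹ h) (π⁻¹ y) := by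
      intro h y
      have h2 : π (π⁻¹ y) = y := π.apply_symm_apply y
      rw [Equiv.Perm.inv_eq_iff_eq, hact, MulAut.apply_inv_self, h2]
    have hcx : ∀ w, Cx i w → Cx i (tw φ π w) := by
      intro w hw g h y
      unfold tw
      rw [map_mul, hw, h1]
    refine ⟨hcx u hu, ?_⟩
    obtain ⟨θ, hθ, _⟩ := (thx Y i u v hu hv).1
    rw [key u v θ hu hv hθ, key _ _ (tw φ π θ) (hcx u hu) (hcx v hv) ?_]
    · have h2 : φ⁻¹ lC = lC := by
        rw [MulAut.inv_def, MulEquiv.symm_apply_eq, hC]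
      unfold tw
      rw [h2]
      exact Equiv.sum_comp π⁻¹ fun y => θ lC y
    · intro g h y
      unfold tw
      rw [map_mul, hθ, h1]
  · intro R u v hu hv hRu hRv
    obtain ⟨h1, _, h3⟩ := thx Y i u v hu hv
    obtain ⟨θ, hθ, hA, hB⟩ := h1
    rw [key u v θ hu hv hθ]
    refine sum_mem fun y _ => ?_
    exact h3 R hRu hRv θ hθ (fun y => by rw [hA]; exact R.zero_mem)
      (fun y => by rw [hB]; exact R.zero_mem) lC y

end Pool.Agent.SOR.H56
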